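import Pool.Agent.K9h15.MnL

/-!
# One elliptic curve and an infinite Galois 2-extension of `ℚ`

Let `F₀ / ℚ` be a finite Galois extension of 2-power degree, unramified at `2`. We construct a finite
set `S` of primes such that, among ALL elliptic curves `E : y ^ 2 = x ^ 3 + A x + B` over `ℚ` ordered by
height, a positive proportion has the following property. Consider the class of ALL the number fields
`F`, Galois over `ℚ` and of 2-power degree, in which `2` is unramified, the primes in `S` split completely,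
and which are ramified only at primes `P` such that `x ^ 3 + A x + B` has no zero modulo `P` (that is, `E`
has good reduction at `P` and `E(𝔽_P)` is of odd order). Then `F₀` is in the class, the compositum `K` of
all the fields in the class is an infinite extension of `ℚ`, and `E(K) = 0`; so `E(F) = 0` and
`m_ρ(E) = 0` for all representations `ρ` of `Gal(F / ℚ)`, for ALL the fields `F` in the class, at the same
time.

The proof follows the one for a single extension (`N922/PQ`, projects PQ and PV of helper922, and the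
results file `PositiveProportionUnramified`). In that proof the twist `D = ∏ Q ∈ J, Q` is determined by
the relaxed 2-Selmer group over `ℚ` only. Here the local conditions at the primes modulo which the
cubic polynomial is irreducible are dropped altogether (this is an infinite set of primes); the
elements of `L = ℚ(θ)` with square norm have even valuations there. The extension is not given by a
global generator but by local generators: at a prime `w` of `F` unramified over `ℚ` there is an
algebraic integer `γ`, `F = ℚ(γ)`, zero of an integral polynomial `g`, such that `g'(γ)` is a unit at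
`w`; this shows that `F L / L` is unramified at the primes over `w` and that `L` is dense there in `F L` if
`w` is of degree one. By the same argument the class is closed under composita. By Chebotarev's
theorem (`W401/Cheb`) there are infinitely many primes `P` modulo which the cubic polynomial is
irreducible, and for all but finitely many of them there is a second one `P'` such that `ℚ(√(P P'))` is in
the class. An analogue over `k(t)` is `MP_ff7320_nt.UniformOverTwoExtensions` (project TW of helper874).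
-/

set_option autoImplicit false
set_option linter.all false

namespace Pool.Agent.Results.MP_775b3b_nt.UniformOverTwoTowers

open Filter NumberField
open scoped Classical TensorProduct

/-- The equation `y ^ 2 = x ^ 3 + A x + B` with integers `A`, `B` defines an elliptic curve, and
there is no prime `p` with `p ^ 4 ∣ A` and `p ^ 6 ∣ B`. Every elliptic curve over `ℚ` is isomorphic to
exactly one of these. -/
structure IsMinimal (A B : ℤ) : Prop where
  elliptic : 4 * A ^ 3 + 27 * B ^ 2 ≠ 0
  minimal : ∀ p : ℕ, p.Prime → ¬ ((p : ℤ) ^ 4 ∣ A ∧ (p : ℤ) ^ 6 ∣ B)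

/-- The height. -/
def height (p : ℤ × ℤ) : ℤ := max (4 * |p.1| ^ 3) (27 * p.2 ^ 2)

/-- The set of all elliptic curves over `ℚ` of height at most `X`. -/
def Curves (X : ℕ) : Set (ℤ × ℤ) := {p | IsMinimal p.1 p.2 ∧ height p ≤ X}

/-- The curve `y ^ 2 = x ^ 3 + A x + B` over `ℚ`. -/
def curve (p : ℤ × ℤ) : WeierstrassCurve ℚ := ⟨0, 0, 0, (p.1 : ℚ), (p.2 : ℚ)⟩

section mult

variable (F : Type) [Field F] [CharZero F] (p : ℤ × ℤ)

/-- The group `E(F)`. -/
def Pts : Type := ((curve p).baseChange F).toAffine.Point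

noncomputable instance instPts : AddCommGroup (Pts F p) :=
  (inferInstance : AddCommGroup ((curve p).baseChange F).toAffine.Point)

/-- The action of `g` in the Galois group on `E(F)`. -/
noncomputable def act (g : F ≃ₐ[ℚ] F) : Pts F p →+ Pts F p :=
  WeierstrassCurve.Affine.Point.map (W' := (curve p).toAffine) g.toAlgHom

/-- The complex vector space `V_E = E(F) ⊗ ℂ`. -/
def VE : Type := ℂ ⊗[ℤ] Pts F p

noncomputable instance instVE : AddCommGroup (VE F p) :=
  (inferInstance : AddCommGroup (ℂ ⊗[ℤ] Pts F p))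

noncomputable instance instVE' : Module ℂ (VE F p) :=
  (inferInstance : Module ℂ (ℂ ⊗[ℤ] Pts F p))

/-- The action of `g` on `V_E`. -/
noncomputable def gal (g : F ≃ₐ[ℚ] F) : VE F p →ₗ[ℂ] VE F p :=
  LinearMap.baseChange ℂ (act F p g).toIntLinearMap

/-- The space `Hom_G(ρ, V_E)`. -/
def HomG {V : Type} [AddCommGroup V] [Module ℂ V] (ρ : Representation ℂ (F ≃ₐ[ℚ] F) V) :
    Submodule ℂ (V →ₗ[ℂ] VE F p) where
  carrier := {f | ∀ (g : F ≃ₐ[ℚ] F) (v : V), f (ρ g v) = gal F p g (f v)}
  add_mem' := by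
    intro f f' h h' g v
    rw [LinearMap.add_apply, LinearMap.add_apply, h g v, h' g v, map_add]
  zero_mem' := by
    intro g v
    rw [LinearMap.zero_apply, LinearMap.zero_apply, map_zero]
  smul_mem' := by
    intro c f h g v
    rw [LinearMap.smul_apply, LinearMap.smul_apply, h g v, map_smul]

/-- The multiplicity `m_ρ(E) = dim Hom_G(ρ, V_E)`. -/
noncomputable def mult {V : Type} [AddCommGroup V] [Module ℂ V]
    (ρ : Representation ℂ (F ≃ₐ[ℚ] F) V) : Cardinal := Module.rank ℂ (HomG F p ρ)

end mult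

/-- `E(F) = 0`, and all multiplicities `m_ρ(E)` are zero. -/
structure AllZero (F : Type) [Field F] [CharZero F] (p : ℤ × ℤ) : Prop where
  trivial : Subsingleton (Pts F p)
  zero : ∀ (V : Type) [AddCommGroup V] [Module ℂ V] (ρ : Representation ℂ (F ≃ₐ[ℚ] F) V),
    mult F p ρ = 0

theorem crv_iff (X : ℕ) (p : ℤ × ℤ) : Pool.Agent.N922.PQ.Crv X p.1 p.2 ↔ p ∈ Curves X := by
  constructor
  · rintro ⟨h1, h2, h3, h4⟩
    exact ⟨⟨h1, h2⟩, max_le h3 h4⟩
  · rintro ⟨⟨h1, h2⟩, h3⟩
    exact ⟨h1, h2, (le_max_left _ _).trans h3, (le_max_right _ _).trans h3⟩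

theorem nonempty {X : ℕ} (hX : 27 ≤ X) : ((1, 1) : ℤ × ℤ) ∈ Curves X := by
  refine ⟨⟨by norm_num, ?_⟩, ?_⟩
  · rintro p hp ⟨h, -⟩
    have h1 : ((p : ℤ)) ∣ 1 := (dvd_pow_self (p : ℤ) (by norm_num)).trans h
    have h2 : p ∣ 1 := by exact_mod_cast h1
    exact hp.one_lt.ne' (Nat.dvd_one.1 h2)
  · have : height ((1, 1) : ℤ × ℤ) = 27 := by
      simp [height]
    rw [this]
    exact_mod_cast hX

/-- The prime number `P` is unramified in `F`: there is no prime ideal `𝔭` of the ring of integers with
`P ∈ 𝔭 ^ 2`. -/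
def Unramified (P : ℕ) (F : Type) [Field F] [NumberField F] : Prop :=
  ∀ 𝔭 : Ideal (𝓞 F), 𝔭.IsPrime → (P : 𝓞 F) ∉ 𝔭 ^ 2

/-- The prime number `Q` splits completely in `F`: it is unramified and the residue fields at the
prime ideals over `Q` have `Q` elements. -/
def Splits (Q : ℕ) (F : Type) [Field F] [NumberField F] : Prop :=
  Unramified Q F ∧ ∀ 𝔭 : Ideal (𝓞 F), 𝔭.IsPrime → (Q : 𝓞 F) ∈ 𝔭 →
    ∀ y : 𝓞 F, ∃ c : ℤ, y - (c : 𝓞 F) ∈ 𝔭

/-- The polynomial `x ^ 3 + A x + B` has no zero modulo `P` (so it is irreducible modulo `P`). -/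
def NoZeroMod (P : ℕ) (p : ℤ × ℤ) : Prop := ∀ z : ℤ, ¬ (P : ℤ) ∣ z ^ 3 + p.1 * z + p.2

/-- The class of the number fields: Galois of 2-power degree, `2` is unramified, the primes in `S` split
completely, and `x ^ 3 + A x + B` has no zero modulo the ramified primes. -/
structure InClass (S : Finset ℕ) (p : ℤ × ℤ) (F : Type) [Field F] [NumberField F] : Prop where
  galois : IsGalois ℚ F
  degree : ∃ n : ℕ, Module.finrank ℚ F = 2 ^ n
  two : Unramified 2 F
  split : ∀ Q ∈ S, Splits Q F
  ramified : ∀ P : ℕ, P.Prime → ¬ Unramified P F → NoZeroMod P p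

/-- The compositum of all the number fields in the class, in the algebraic closure of `ℚ`. -/
noncomputable def Compositum (S : Finset ℕ) (p : ℤ × ℤ) : IntermediateField ℚ (AlgebraicClosure ℚ) :=
  ⨆ F : {F : IntermediateField ℚ (AlgebraicClosure ℚ) // ∃ _ : NumberField F, InClass S p F}, F.1

/-- The curve has no points but the point at infinity over all the fields in the class and over
their compositum, which is an infinite extension of `ℚ`, and all multiplicities are zero; `F₀` is in
the class. -/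
structure Good (S : Finset ℕ) (F₀ : Type) [Field F₀] [NumberField F₀] (p : ℤ × ℤ) : Prop where
  start : InClass S p F₀
  degree : ¬ FiniteDimensional ℚ (Compositum S p)
  compositum : AllZero (Compositum S p) p
  all : ∀ (F : Type) [Field F] [NumberField F], InClass S p F → AllZero F p

section conv

open Pool.Agent.K9h15.Mn
open Pool.Agent.N922.PQ (IsPr Ov GoodV exists_below)

theorem cls_of {S : Finset ℤ} (hS : ∀ Q ∈ S, IsPr Q) {p : ℤ × ℤ} {F : Type} [Field F]
    [NumberField F] (h : InClass (S.image Int.toNat) p F) : Cls p.1 p.2 S F where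
  gal := h.galois
  deg := h.degree
  two w hw := by
    have h1 := val_one (P := 2) w hw (by
      have h2 := h.two w.asIdeal w.isPrime
      exact_mod_cast h2)
    exact_mod_cast h1
  ram w hw := by
    obtain ⟨P, hP, hPw⟩ := exists_below w
    refine ⟨P, val_one w hPw ?_⟩
    have e : ((P.toNat : ℕ) : ℤ) = P := Int.toNat_of_nonneg hP.1.le
    have hpr : P.toNat.Prime := by
      rw [Nat.prime_iff_prime_int, e]
      exact hP.2
    have hu : Unramified P.toNat F := by
      by_contra hn
      refine hw P ⟨hP, ?_⟩ hPw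
      have h1 := h.ramified P.toNat hpr hn
      unfold NoZeroMod at h1
      rwa [e] at h1
    have h2 := hu w.asIdeal w.isPrime
    have e2 : ((P.toNat : ℕ) : 𝓞 F) = (P : 𝓞 F) := by
      rw [← Int.cast_natCast, e]
    rwa [e2] at h2
  tot Q hQ w hw := by
    have e : ((Q.toNat : ℕ) : ℤ) = Q := Int.toNat_of_nonneg (hS Q hQ).1.le
    have e2 : ((Q.toNat : ℕ) : 𝓞 F) = (Q : 𝓞 F) := by
      rw [← Int.cast_natCast, e]
    obtain ⟨h1, h2⟩ := h.split Q.toNat (Finset.mem_image_of_mem _ hQ)
    have h3 := h1 w.asIdeal w.isPrime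
    have h4 := h2 w.asIdeal w.isPrime
    rw [e2] at h3 h4
    exact ⟨val_one w hw h3, h4 hw⟩

theorem splits_of {F : Type} [Field F] [NumberField F] {Q : ℤ} (hQ : IsPr Q) (h : Tot F Q) :
    Splits Q.toNat F := by
  have e : ((Q.toNat : ℕ) : ℤ) = Q := Int.toNat_of_nonneg hQ.1.le
  have e2 : ((Q.toNat : ℕ) : 𝓞 F) = (Q : 𝓞 F) := by
    rw [← Int.cast_natCast, e]
  have hQ0 : (Q : 𝓞 F) ≠ 0 := by
    exact_mod_cast hQ.2.ne_zero
  have hbot : ∀ 𝔭 : Ideal (𝓞 F), (Q : 𝓞 F) ∈ 𝔭 → 𝔭 ≠ ⊥ := by
    rintro 𝔭 h1 rfl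
    exact hQ0 (by simpa using h1)
  refine ⟨fun 𝔭 h𝔭 h1 => ?_, fun 𝔭 h𝔭 h1 => ?_⟩
  · rw [e2] at h1
    have h2 := Ideal.pow_le_self two_ne_zero h1
    exact not_sq ⟨𝔭, h𝔭, hbot 𝔭 h2⟩ (h ⟨𝔭, h𝔭, hbot 𝔭 h2⟩ h2).1 h1
  · rw [e2] at h1
    exact (h ⟨𝔭, h𝔭, hbot 𝔭 h1⟩ h1).2

theorem two_of {S : Finset ℤ} {p : ℤ × ℤ} {F : Type} [Field F] [NumberField F]
    (h : Cls p.1 p.2 S F) : Unramified 2 F := by
  intro 𝔭 h𝔭 h1
  have h2 : ((2 : ℤ) : 𝓞 F) ∈ 𝔭 := by
    have := Ideal.pow_le_self two_ne_zero h1
    exact_mod_cast this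
  have hbot : 𝔭 ≠ ⊥ := by
    rintro rfl
    simp at h2
  have h3 := h.two ⟨𝔭, h𝔭, hbot⟩ h2
  exact not_sq ⟨𝔭, h𝔭, hbot⟩ (P := 2) (by exact_mod_cast h3) (by exact_mod_cast h1)

theorem class_of {S : Finset ℤ} (hS : ∀ Q ∈ S, IsPr Q) {p : ℤ × ℤ} {F : Type} [Field F]
    [NumberField F] (h : Cls p.1 p.2 S F) : InClass (S.image Int.toNat) p F where
  galois := h.gal
  degree := h.deg
  two := two_of h
  split Q hQ := by
    obtain ⟨Q', hQ', rfl⟩ := Finset.mem_image.1 hQ
    exact splits_of (hS Q' hQ') (h.tot Q' hQ')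
  ramified P hP hn := by
    unfold Unramified at hn
    push Not at hn
    obtain ⟨𝔭, h𝔭, hm⟩ := hn
    have hPr : IsPr (P : ℤ) := ⟨by exact_mod_cast hP.pos, Nat.prime_iff_prime_int.1 hP⟩
    exact (tset_of_ram h.ram hPr 𝔭 h𝔭 (by exact_mod_cast hm)).2

theorem comp_eq {S : Finset ℤ} (hS : ∀ Q ∈ S, IsPr Q) (p : ℤ × ℤ) :
    Compositum (S.image Int.toNat) p = maxF (AlgebraicClosure ℚ) p.1 p.2 S := by
  refine le_antisymm (iSup_le ?_) (iSup_le ?_)
  · rintro ⟨F, hF, hc⟩
    exact le_max ⟨hF, cls_of hS hc⟩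
  · rintro ⟨F, hF, hc⟩
    exact le_iSup (fun F : {F : IntermediateField ℚ (AlgebraicClosure ℚ) //
      ∃ _ : NumberField F, InClass (S.image Int.toNat) p F} => F.1) ⟨F, hF, class_of hS hc⟩

theorem rat_algebraic {F : Type} [Field F] {i j : Algebra ℚ F}
    (h : @Algebra.IsAlgebraic ℚ F _ _ i) : @Algebra.IsAlgebraic ℚ F _ _ j := by
  have e : i = j := Subsingleton.elim _ _
  subst e
  exact h

end conv

theorem allZero_of {F : Type} [Field F] [CharZero F] {p : ℤ × ℤ} (k1 : Subsingleton (Pts F p)) :
    AllZero F p := by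
  refine ⟨k1, ?_⟩
  intro V _ _ ρ
  -- the tensor product is zero
  have hz : ∀ x : VE F p, x = 0 := by
    intro x
    change ℂ ⊗[ℤ] Pts F p at x
    induction x using TensorProduct.induction_on with
    | zero => rfl
    | tmul z P =>
      rw [Subsingleton.elim P 0, TensorProduct.tmul_zero]
      rfl
    | add x y hx hy =>
      rw [hx, hy]
      exact add_zero (0 : VE F p)
  have hs : Subsingleton (HomG F p ρ) := by
    refine ⟨fun f f' => ?_⟩
    apply Subtype.ext
    ext v
    rw [hz ((f : V →ₗ[ℂ] VE F p) v), hz ((f' : V →ₗ[ℂ] VE F p) v)]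
  exact rank_subsingleton' ℂ _

theorem pts_of {F : Type} [Field F] [NumberField F] {p : ℤ × ℤ}
    (h : Pool.Agent.N922.PQ.GoodV (M := F) (𝓞 F) p) : Subsingleton (Pts F p) := by
  have e : (Pool.Agent.N874.PP.sW (p.1 : F) (p.2 : F)).baseChange F =
      (curve p).baseChange F := by
    apply WeierstrassCurve.ext <;>
      simp [Pool.Agent.N874.PP.sW, curve, WeierstrassCurve.baseChange]
  have key : ∀ W : WeierstrassCurve F,
      (Pool.Agent.N874.PP.sW (p.1 : F) (p.2 : F)).baseChange F = W →
      Subsingleton W.toAffine.Point := by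
    rintro W rfl
    exact h.2.1
  exact key _ e

/-- From the finite to the infinite extensions. -/
theorem pts_tower {p : ℤ × ℤ} (K : Type) [Field K] [CharZero K] [IsGalois ℚ K]
    (hK : ∀ (F : IntermediateField ℚ K) [NumberField F], IsGalois ℚ F → Subsingleton (Pts F p)) :
    Subsingleton (Pts K p) := by
  have key : ∀ P : Pts K p, P = 0 := by
    intro P
    change ((curve p).baseChange K).toAffine.Point at P
    rcases P with _ | ⟨x, y, hP⟩
    · rfl
    · exfalso
      have hx : IsIntegral ℚ x := Algebra.IsIntegral.isIntegral x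
      have hy : IsIntegral ℚ y := Algebra.IsIntegral.isIntegral y
      let E : IntermediateField ℚ K := IntermediateField.adjoin ℚ {x, y}
      haveI : FiniteDimensional ℚ E := by
        apply IntermediateField.finiteDimensional_adjoin
        rintro z (rfl | rfl)
        · exact hx
        · exact hy
      let F : IntermediateField ℚ K := IntermediateField.normalClosure ℚ E K
      haveI : FiniteDimensional ℚ F := normalClosure.is_finiteDimensional ℚ E K
      haveI : NumberField F := ⟨⟩
      haveI : Normal ℚ F := normalClosure.normal ℚ E K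
      haveI : IsGalois ℚ F := ⟨⟩
      have hle : E ≤ F := IntermediateField.le_normalClosure E
      have hxF : x ∈ F := hle (IntermediateField.subset_adjoin _ _ (by simp))
      have hyF : y ∈ F := hle (IntermediateField.subset_adjoin _ _ (by simp))
      have hs := hK F inferInstance
      have hn : ((curve p).baseChange F).toAffine.Nonsingular (⟨x, hxF⟩ : F) ⟨y, hyF⟩ := by
        rw [← WeierstrassCurve.Affine.baseChange_nonsingular (W := (curve p).toAffine) (f := F.val)
          F.val.injective]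
        exact hP
      have h1 : (WeierstrassCurve.Affine.Point.some _ _ hn :
          ((curve p).baseChange F).toAffine.Point) = 0 := hs.elim _ (0 : Pts F p)
      exact absurd h1 (WeierstrassCurve.Affine.Point.some_ne_zero _)
  exact ⟨fun P Q => (key P).trans (key Q).symm⟩

/-- Let `F₀ / ℚ` be a Galois extension of degree `2 ^ n` in which `2` is unramified. There are a finite
set `S` of primes and `c > 0` such that for all large `X` at least `c` times the number of all elliptic
curves `E` over `ℚ` of height at most `X` are good: `E(F) = 0` and `m_ρ(E) = 0` for all `ρ`, for all the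
number fields `F` in the class of `S` and `E` and for their compositum, an infinite extension of `ℚ`; and
`F₀` is in this class. -/
theorem result (F₀ : Type) [Field F₀] [NumberField F₀] [IsGalois ℚ F₀] (n : ℕ)
    (hn : Module.finrank ℚ F₀ = 2 ^ n) (h2 : Unramified 2 F₀) :
    ∃ S : Finset ℕ, (∀ Q ∈ S, Q.Prime) ∧
    (∀ X : ℕ, (Curves X).Finite) ∧
    ∃ c : ℝ, 0 < c ∧ ∀ᶠ X : ℕ in atTop,
      0 < (Curves X).ncard ∧
      c * ((Curves X).ncard : ℝ) ≤ (({p ∈ Curves X | Good S F₀ p}).ncard : ℝ) := by
  have hset : ∀ X : ℕ, Curves X = {p : ℤ × ℤ | Pool.Agent.N922.PQ.Crv X p.1 p.2} := by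
    intro X
    ext p
    exact (crv_iff X p).symm
  have hfin : ∀ X : ℕ, (Curves X).Finite := fun X => by
    rw [hset]
    exact Pool.Agent.N922.PQ.crv_fin X
  obtain ⟨S, hS, c, hc, X₀, h⟩ := Pool.Agent.K9h15.Mn.finalU F₀ hn
    (fun w hw => by
      have h1 := Pool.Agent.K9h15.Mn.val_one (P := 2) w hw (by
        have h3 := h2 w.asIdeal w.isPrime
        exact_mod_cast h3)
      exact_mod_cast h1)
    {2} (fun P hP => by
      rw [Finset.mem_singleton] at hP
      rw [hP]
      exact ⟨by norm_num, Int.prime_two⟩)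
  have hS' : ∀ Q ∈ S, Pool.Agent.N922.PQ.IsPr Q := fun Q hQ => (hS Q hQ).1
  refine ⟨S.image Int.toNat, ?_, hfin, c, hc, ?_⟩
  · intro Q hQ
    obtain ⟨Q', hQ', rfl⟩ := Finset.mem_image.1 hQ
    have h1 := hS' Q' hQ'
    have e : ((Q'.toNat : ℕ) : ℤ) = Q' := Int.toNat_of_nonneg h1.1.le
    rw [Nat.prime_iff_prime_int, e]
    exact h1.2
  filter_upwards [eventually_ge_atTop (max X₀ 27)] with X hX
  refine ⟨(Set.ncard_pos (hfin X)).2 ⟨_, nonempty ((le_max_right _ _).trans hX)⟩, ?_⟩
  have h1 := (h X ((le_max_left _ _).trans hX)).2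
  rw [← hset] at h1
  refine h1.trans ?_
  have h3 : {p : ℤ × ℤ | Pool.Agent.N922.PQ.Crv X p.1 p.2 ∧
      Pool.Agent.K9h15.Mn.GoodU S {2} F₀ p} ⊆
      {p ∈ Curves X | Good (S.image Int.toNat) F₀ p} := by
    rintro p ⟨hp, hg⟩
    have hf : ∀ (F : Type) [Field F] [NumberField F], InClass (S.image Int.toNat) p F →
        Subsingleton (Pts F p) := fun F _ _ hF => pts_of (hg.all F (cls_of hS' hF))
    have h2T : (2 : ℤ) ∈ Pool.Agent.K9h15.Mn.Tset p.1 p.2 :=
      hg.base 2 (Finset.mem_singleton_self _)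
    haveI hAlg : Algebra.IsAlgebraic ℚ (AlgebraicClosure ℚ) :=
      rat_algebraic (AlgebraicClosure.isAlgebraic ℚ)
    have hinf := Pool.Agent.K9h15.Mn.inf_ram (Qb := AlgebraicClosure ℚ)
      (fun Q hQ => ⟨(hS Q hQ).1, (hS Q hQ).2.1⟩) h2T
    -- there is a member
    have h0 : ∃ F : IntermediateField ℚ (AlgebraicClosure ℚ),
        Pool.Agent.K9h15.Mn.Mem p.1 p.2 S F := by
      obtain ⟨P, -, F, hF, hc, -⟩ := hinf.nonempty
      exact ⟨F, hF, hc⟩
    have hclosed : ∀ (F : IntermediateField ℚ (Compositum (S.image Int.toNat) p)) [NumberField F],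
        IsGalois ℚ F → InClass (S.image Int.toNat) p F := by
      rw [comp_eq hS' p]
      intro F _ hF
      exact class_of hS' (Pool.Agent.K9h15.Mn.cls_max h0 F hF)
    haveI hgal : IsGalois ℚ (Compositum (S.image Int.toNat) p) := by
      rw [comp_eq hS' p]
      exact Pool.Agent.K9h15.Mn.max_gal
    refine ⟨(crv_iff X p).1 hp,
      { start := class_of hS' hg.cls
        degree := ?_
        compositum := allZero_of (pts_tower _ fun F _ hF => hf F (hclosed F hF))
        all := fun F _ _ hF => allZero_of (hf F hF) }⟩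
    rw [comp_eq hS' p]
    intro hfd
    exact Pool.Agent.K9h15.Mn.max_inf (Qb := AlgebraicClosure ℚ)
      (fun Q hQ => ⟨(hS Q hQ).1, (hS Q hQ).2.1⟩) h2T ⟨⟩
  have h4 := Set.ncard_le_ncard h3 ((hfin X).subset fun p hp => hp.1)
  exact_mod_cast h4

end Pool.Agent.Results.MP_775b3b_nt.UniformOverTwoTowers
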